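import Pool.Agent.H99.GQ.Fin

set_option autoImplicit false

/-!
# Expansion versus smoothness of the quenched survival function at criticality

There is an offspring law with finite mean `m > 1` such that for almost every Galton-Watson tree
the quenched survival function has an expansion of every order at `p_c^+ = (1/m)^+`, but is not of
class `C^k` at `p_c^+` for any `k ≥ 2`.  This answers Q2 of MP_97806e_pr affirmatively.

Definitions (file `Pool.Agent.H99.GQ.Defs`): `Env` (words of natural numbers are the potential
vertices, `Z u` is the number of children of `u`, the children of `u` are the words `i :: u`,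
`i < Z u`), `GW ν` (all `Z u` are independent with law `ν`), `bern` (Bernoulli product law),
`OpenTo` (the open cluster of the root for bond percolation), `gq` (the quenched survival function),
`gr` (the same, as a real function on the real line, extended by constants outside `[0,1]`),
`HasExpansion`, `IsClassC`.
-/

namespace Pool.Agent.Results.MP_97806e_pr.QuenchedExpansionNotSmooth

open MeasureTheory Pool.Agent.H99.GQ

/-- There are an offspring law `ν` with finite mean `m > 1` such that for almost every
Galton-Watson tree the quenched survival function `p ↦ g(T,p)` has an order-`k` expansion at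
`p_c^+ = (1/m)^+` for every `k`, but is not of class `C^k` at `p_c^+` for any `k ≥ 2`. -/
theorem result : ∃ (ν : PMF ℕ) (m : ℝ), 1 < m ∧
    ∑' n : ℕ, ν n * (n : ENNReal) = ENNReal.ofReal m ∧
    ∀ᵐ Z ∂GW ν, ∀ k : ℕ, HasExpansion (gr Z) (1 / m) k ∧
      (2 ≤ k → ¬ IsClassC (gr Z) (1 / m) k) := by
  refine ⟨lac, mm, by linarith [mm_lower], lac_mean, ?_⟩
  filter_upwards [ae_not_C2, ae_all_iff.2 ae_expansion] with Z h1 h2 k
  refine ⟨h2 k, fun hk => ?_⟩
  rintro ⟨δ, hδ, hC⟩
  refine h1 δ hδ (hC.of_le ?_)
  exact_mod_cast hk

end Pool.Agent.Results.MP_97806e_pr.QuenchedExpansionNotSmooth
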